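import Mathlib
import Pool.Agent.W926.PS.Stm

/-!
Project PS: core assembly of part L.
-/

namespace W435.PS

open Finset W926.PS

theorem core : S_LEV → S_B → S_SIG → S_PAIR → S_REG → S_RANK → S_NUML → S_CORE := by
  intro hLEV hB hSIG hPAIR hREG hRANK hNUML C
  obtain ⟨T, hT, hnum⟩ := hNUML C
  have hq : T - 1 + 1 = T := by omega
  refine ⟨T - 1, fun N => ?_⟩
  obtain ⟨m₀, hm₀⟩ := hnum N
  refine ⟨max m₀ (T + 1), lt_of_lt_of_le (by omega) (le_max_right _ _), ?_⟩
  intro m hm n hmn key hkey
  have hm1 : m₀ ≤ m := le_trans (le_max_left _ _) hm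
  have hm2 : T + 1 ≤ m := le_trans (le_max_right _ _) hm
  have hmpos : 0 < m := by omega
  have hn0 : n ≠ 0 := by
    rintro rfl
    simp at hmn
    omega
  obtain ⟨b, hb⟩ : ∃ b, b = Nat.log 2 n / (3 * m) := ⟨_, rfl⟩
  have hlog : Nat.log 2 n < 3 * m * (b + 1) := by
    rw [hb]; exact Nat.lt_mul_div_succ _ (by omega)
  have hmC : m ≤ 3 * C * (b + 1) := by
    have h1 : m * m ≤ m * (3 * C * (b + 1)) := by
      calc m * m = m ^ 2 := by ring
        _ ≤ C * Nat.log 2 n := hmn
        _ ≤ C * (3 * m * (b + 1)) := Nat.mul_le_mul_left _ hlog.le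
        _ = m * (3 * C * (b + 1)) := by ring
    exact Nat.le_of_mul_le_mul_left h1 hmpos
  obtain ⟨hTm, hn1, hn2⟩ := hm₀ m hm1 b hmC
  obtain ⟨Q, hQ⟩ : ∃ Q, Q = 2 ^ b := ⟨_, rfl⟩
  have hQpos : 0 < Q := by rw [hQ]; positivity
  rw [← hQ] at hn1 hn2
  obtain ⟨R, hR⟩ : ∃ R, R = 3 * m := ⟨_, rfl⟩
  rw [← hR] at hn1
  have hn' : Q ^ R ≤ n := by
    rw [hQ, ← pow_mul]
    refine le_trans (Nat.pow_le_pow_right (by norm_num) ?_) (Nat.pow_log_le_self 2 hn0)
    rw [hR, hb]
    exact Nat.div_mul_le_self _ _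
  have hTR : T ≤ R := by omega
  -- positions
  have hr := fun l : Fin m => hRANK (Q ^ R) (fun x => key l (Fin.castLE hn' x))
    (fun x y hxy => Fin.castLE_injective hn' (hkey l hxy))
  choose ρ hρ using hr
  obtain ⟨pos, hpos⟩ : ∃ pos : ℕ → Fin (Q ^ R) → ℕ,
      pos = fun l x => if h : l < m then ((ρ ⟨l, h⟩ x : Fin (Q ^ R)) : ℕ) else (x : ℕ) := ⟨_, rfl⟩
  have hposl : ∀ (l : Fin m) x, pos l x = (ρ l x : Fin (Q ^ R)) := by
    intro l x
    rw [hpos]
    simp [l.2]
  have hposlt : ∀ l x, pos l x < Q ^ R := by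
    intro l x
    rw [hpos]
    dsimp only
    split_ifs with h
    · exact Fin.is_lt _
    · exact Fin.is_lt _
  have hposinj : ∀ l, Function.Injective (pos l) := by
    intro l x y hxy
    rw [hpos] at hxy
    dsimp only at hxy
    split_ifs at hxy with h
    · exact (ρ ⟨l, h⟩).injective (Fin.ext hxy)
    · exact Fin.ext hxy
  have hkeylt : ∀ (l : Fin m) x y, pos l x < pos l y →
      key l (Fin.castLE hn' x) < key l (Fin.castLE hn' y) := by
    intro l x y h
    rw [hposl, hposl] at h
    exact (hρ l x y).1 h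
  obtain ⟨lev, hlev⟩ := hLEV (Fin (Q ^ R)) Q R (T - 1) T pos
  have hcard : Fintype.card (Fin (Q ^ R)) ≤ Q ^ R := by simp
  have hsig := hSIG (Fin (Q ^ R)) Q R (T - 1) T m pos lev hQpos hTR hcard hposlt hlev
  obtain ⟨cl, hcl⟩ : ∃ cl : ℕ → Fin (Q ^ R) → ℕ,
    cl = fun l x => cell Q R (lev l x) (pos l x) := ⟨_, rfl⟩
  have hcl' : ∀ l x, cl l x = cell Q R (lev l x) (pos l x) := fun l x => by rw [hcl]
  obtain ⟨K, u, v, τ, t, hKcard, hK⟩ := hPAIR (Fin (Q ^ R)) T m lev cl pos hlev.le hposinj (by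
    have h1 : (univ.image (fun (x : Fin (Q ^ R)) (l : Fin m) => (lev l x, cl l x))).card ≤
      (1 + T * (m + 1) ^ (T - 1) * Q ^ 2) ^ m := by
      simpa only [hcl'] using hsig
    rw [Fintype.card_fin]
    exact le_trans (Nat.mul_le_mul_left 2 h1) hn1)
  rw [Fintype.card_fin] at hKcard
  obtain ⟨E, g, hE, hgK, hsep⟩ := hREG (Fin (Q ^ R)) m (T - 1) N Q (Q ^ R)
    (2 * (2 * (T + 1)) ^ m) K (fun l x => cl l x) (by positivity) hKcard (by
      intro x hx E hEc
      rw [hq] at hEc ⊢
      by_cases hall : ∀ l ∈ E, lev l x < T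
      · have h1 := hB (Fin (Q ^ R)) Q R (T - 1) T pos lev hlev hcard x
          (E.map Fin.valEmbedding) (by rw [Finset.card_map, hEc, hq]) (by
            intro i hi
            rw [Finset.mem_map] at hi
            obtain ⟨l, hl, rfl⟩ := hi
            exact hall l hl)
        rw [Finset.card_map, hEc] at h1
        refine le_trans (Nat.mul_le_mul_right _ (Finset.card_le_card ?_)) h1
        intro y hy
        rw [Finset.mem_filter] at hy ⊢
        refine ⟨Finset.mem_univ _, ?_⟩
        intro i hi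
        rw [Finset.mem_map] at hi
        obtain ⟨l, hl, rfl⟩ := hi
        have h2 := hy.2 l hl
        rw [hcl', hcl'] at h2
        have h3 : lev l y = lev l x := by
          rw [((hK y hy.1).2 l).1, ((hK x hx).2 l).1]
        rw [h3] at h2
        exact h2
      · push Not at hall
        obtain ⟨l, hl, hTl⟩ := hall
        have hlT : lev l x = T := le_antisymm (hlev.le l x) hTl
        have h1 : (K.filter (fun y => ∀ l ∈ E, cl l y = cl l x)).card ≤ Q ^ (R - T) := by
          have h2 : ∀ y ∈ K.filter (fun y => ∀ l ∈ E, cl l y = cl l x),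
              pos l y ∈ Finset.Ico (pos l x / Q ^ (R - T) * Q ^ (R - T))
                (pos l x / Q ^ (R - T) * Q ^ (R - T) + Q ^ (R - T)) := by
            intro y hy
            rw [Finset.mem_filter] at hy
            have h2 := hy.2 l hl
            rw [hcl', hcl'] at h2
            have h3 : lev l y = lev l x := by
              rw [((hK y hy.1).2 l).1, ((hK x hx).2 l).1]
            rw [h3, hlT] at h2
            unfold cell at h2
            rw [Finset.mem_Ico, ← h2]
            exact ⟨Nat.div_mul_le_self _ _, Nat.lt_div_mul_add (by positivity)⟩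
          have h3 := Finset.card_le_card_of_injOn (pos l) h2
            (fun a _ b _ hab => hposinj l hab)
          rw [Nat.card_Ico] at h3
          omega
        calc (K.filter (fun y => ∀ l ∈ E, cl l y = cl l x)).card * Q ^ T
            ≤ Q ^ (R - T) * Q ^ T := Nat.mul_le_mul_right _ h1
          _ = Q ^ R := by rw [← pow_add]; congr 1; omega)
    (by rw [hq]; exact hn2)
  refine ⟨E, fun i => Fin.castLE hn' (u (g i)), fun i => Fin.castLE hn' (v (g i)), hE, ?_, ?_, ?_⟩
  · intro i h
    exact (hK (g i) (hgK i)).1 (Fin.castLE_injective hn' h)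
  · intro l
    cases hτ : τ l
    · right
      intro i
      apply hkeylt
      have h1 := ((hK (g i) (hgK i)).2 l).2.2.2.2.2
      rw [hτ] at h1
      have h2 : pos l (u (g i)) ≠ pos l (v (g i)) :=
        fun h => (hK (g i) (hgK i)).1 (hposinj l h)
      have h3 : ¬ (pos l (u (g i)) < pos l (v (g i))) := by
        intro h; exact absurd (h1.1 h) (by simp)
      omega
    · left
      intro i
      apply hkeylt
      have h1 := ((hK (g i) (hgK i)).2 l).2.2.2.2.2
      exact h1.2 hτ
  · intro l hl i k hik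
    have hne := hsep i k hik l hl
    have hcells : ∀ i : Fin N, pos l (u (g i)) / Q ^ (R - t l) = cl l (g i) ∧
        pos l (v (g i)) / Q ^ (R - t l) = cl l (g i) := by
      intro i
      obtain ⟨h1, h2, h3, h4, h5, -⟩ := (hK (g i) (hgK i)).2 l
      refine ⟨?_, ?_⟩
      · rw [← h4, hcl' l (u (g i)), h2]; rfl
      · rw [← h5, hcl' l (v (g i)), h3]; rfl
    have hltt : ∀ x y : Fin (Q ^ R), pos l x / Q ^ (R - t l) < pos l y / Q ^ (R - t l) →
        key l (Fin.castLE hn' x) < key l (Fin.castLE hn' y) := by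
      intro x y h
      exact hkeylt l x y (Nat.lt_of_div_lt_div h)
    rcases lt_or_gt_of_ne hne with h | h
    · left
      refine ⟨?_, ?_, ?_, ?_⟩ <;> apply hltt
      · rw [(hcells i).1, (hcells k).1]; exact h
      · rw [(hcells i).1, (hcells k).2]; exact h
      · rw [(hcells i).2, (hcells k).1]; exact h
      · rw [(hcells i).2, (hcells k).2]; exact h
    · right
      refine ⟨?_, ?_, ?_, ?_⟩ <;> apply hltt
      · rw [(hcells i).1, (hcells k).1]; exact h
      · rw [(hcells i).1, (hcells k).2]; exact h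
      · rw [(hcells i).2, (hcells k).1]; exact h
      · rw [(hcells i).2, (hcells k).2]; exact h

end W435.PS
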