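import Mathlib
import Pool.Agent.W926.PS.Base

/-!
Project PS: special case II, twelve patterns.
-/

namespace W435.PS

open Finset W926.PS

theorem permEq : ∀ π π' : Equiv.Perm (Fin 3),
    (∀ g h : Fin 3, (π g < π h ↔ π' g < π' h)) → π = π' := by
  decide

theorem iia : S_IIA := by
  classical
  intro r a κ F hF X Y i j c d e hC
  have hji : j ≠ i := fun h => by
    have := hC.ij
    rw [h] at this; exact lt_irrefl _ this
  have h10 : X 1 i ≠ X 0 i := fun h => hC.atd (congrFun h d)
  have h20 : X 2 i ≠ X 0 i := fun h => hC.atc.2 (congrFun h c)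
  have h21 : X 2 i ≠ X 1 i := fun h => hC.atc.2 (by rw [congrFun h c]; exact hC.atc.1)
  obtain ⟨S, hS⟩ : ∃ S : Finset (Fin r × (Fin a → Bool)),
      S = (univ.image (fun g : Fin 3 => (i, X g i)) ∪ univ.image (fun g : Fin 3 => (j, X g j))) ∪
        univ.image (fun g : Fin 3 => (j, Y g j)) := ⟨_, rfl⟩
  have hSc : S.card ≤ 9 := by
    rw [hS]
    have h1 : (univ.image (fun g : Fin 3 => (i, X g i))).card ≤ 3 :=
      le_trans Finset.card_image_le (by simp)
    have h2 : (univ.image (fun g : Fin 3 => (j, X g j))).card ≤ 3 :=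
      le_trans Finset.card_image_le (by simp)
    have h3 : (univ.image (fun g : Fin 3 => (j, Y g j))).card ≤ 3 :=
      le_trans Finset.card_image_le (by simp)
    have h4 := Finset.card_union_le (univ.image (fun g : Fin 3 => (i, X g i)) ∪
      univ.image (fun g : Fin 3 => (j, X g j))) (univ.image (fun g : Fin 3 => (j, Y g j)))
    have h5 := Finset.card_union_le (univ.image (fun g : Fin 3 => (i, X g i)))
      (univ.image (fun g : Fin 3 => (j, X g j)))
    omega
  have hS1 : ∀ g, (i, X g i) ∈ S := by
    intro g
    rw [hS]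
    exact Finset.mem_union_left _ (Finset.mem_union_left _
      (Finset.mem_image_of_mem _ (Finset.mem_univ g)))
  have hS2 : ∀ g, (j, X g j) ∈ S := by
    intro g
    rw [hS]
    exact Finset.mem_union_left _ (Finset.mem_union_right _
      (Finset.mem_image_of_mem _ (Finset.mem_univ g)))
  have hS3 : ∀ g, (j, Y g j) ∈ S := by
    intro g
    rw [hS]
    exact Finset.mem_union_right _ (Finset.mem_image_of_mem _ (Finset.mem_univ g))
  have hw := fun s : Bool × Equiv.Perm (Fin 3) => hF.wt S hSc
    (fun z => if z.1 = i then (if z.2 = X 0 i then s.2 0 else if z.2 = X 1 i then s.2 1 else s.2 2)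
      else (if z.2 e = false then (if s.1 then 0 else 1) else (if s.1 then 1 else 0)))
  choose key hkey W' hW hwt using hw
  have w1 : ∀ s g, W' s (i, X g i) = s.2 g := by
    intro s g
    rw [hW s _ (hS1 g)]
    dsimp only
    rw [if_pos rfl]
    fin_cases g
    · simp
    · simp [h10]
    · simp [h20, h21]
  have w2 : ∀ s g, W' s (j, X g j) = (if s.1 then 0 else 1) := by
    intro s g
    rw [hW s _ (hS2 g)]
    dsimp only
    rw [if_neg hji, if_pos (hC.ate g).1]
  have w3 : ∀ s g, W' s (j, Y g j) = (if s.1 then 1 else 0) := by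
    intro s g
    rw [hW s _ (hS3 g)]
    dsimp only
    rw [if_neg hji, if_neg (by rw [(hC.ate g).2]; simp)]
  have hXY : ∀ g, X g i = Y g i := fun g => hC.xy i hC.ij g
  have hYag : ∀ b, b < i → ∀ g, Y g b = X 0 b := by
    intro b hb g
    rw [← hC.xy b (lt_trans hb hC.ij) g]
    exact hC.agree b hb g
  have hlt : ∀ s g h, s.2 g < s.2 h →
      key s (X g) < key s (X h) ∧ key s (X g) < key s (Y h) ∧
      key s (Y g) < key s (X h) ∧ key s (Y g) < key s (Y h) := by
    intro s g h hgh
    refine ⟨?_, ?_, ?_, ?_⟩
    · apply hwt s (X g) (X h) i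
      · intro b hb
        rw [hC.agree b hb, hC.agree b hb h]
      · rw [w1, w1]; exact hgh
    · apply hwt s (X g) (Y h) i
      · intro b hb
        rw [hC.agree b hb, hYag b hb h]
      · rw [← hXY h, w1, w1]; exact hgh
    · apply hwt s (Y g) (X h) i
      · intro b hb
        rw [hYag b hb, hC.agree b hb h]
      · rw [← hXY g, w1, w1]; exact hgh
    · apply hwt s (Y g) (Y h) i
      · intro b hb
        rw [hYag b hb, hYag b hb h]
      · rw [← hXY g, ← hXY h, w1, w1]; exact hgh
  have hs : ∀ s g, (key s (X g) < key s (Y g) ↔ s.1 = true) := by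
    intro s g
    cases hs1 : s.1
    · have h1 : key s (Y g) < key s (X g) := by
        apply hwt s (Y g) (X g) j
        · intro b hb
          exact (hC.xy b hb g).symm
        · rw [w2, w3, hs1]
          simp
      constructor
      · intro h2; omega
      · intro h2; simp at h2
    · have h1 : key s (X g) < key s (Y g) := by
        apply hwt s (X g) (Y g) j
        · intro b hb
          exact hC.xy b hb g
        · rw [w2, w3, hs1]
          simp
      exact ⟨fun _ => rfl, fun _ => h1⟩
  have hpi : ∀ s g h, (key s (X g) < key s (X h) ↔ s.2 g < s.2 h) := by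
    intro s g h
    constructor
    · intro h1
      by_contra h2
      rw [not_lt] at h2
      rcases h2.lt_or_eq with h3 | h3
      · have := (hlt s h g h3).1
        omega
      · have h4 : h = g := s.2.injective h3
        rw [h4] at h1
        omega
    · intro h1
      exact (hlt s g h h1).1
  have h3 : Fintype.card (Bool × Equiv.Perm (Fin 3)) = 12 := by
    rw [Fintype.card_prod, Fintype.card_bool, Fintype.card_perm, Fintype.card_fin]
    rfl
  rw [← h3]
  refine le_nq F (AII X Y) (six X Y) key hkey ?_ ?_
  · intro s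
    refine ⟨?_, ?_⟩
    · intro g h hgh
      have hne : s.2 g ≠ s.2 h := fun h1 => hgh (s.2.injective h1)
      rcases lt_or_gt_of_ne hne with h1 | h1
      · obtain ⟨a1, a2, a3, a4⟩ := hlt s g h h1
        exact ⟨⟨fun _ => a2, fun _ => a1⟩, ⟨fun _ => a3, fun _ => a1⟩, ⟨fun _ => a4, fun _ => a1⟩⟩
      · obtain ⟨a1, a2, a3, a4⟩ := hlt s h g h1
        unfold Blk
        omega
    · intro g
      rw [hs, hs]
  · intro s t hst
    have e1 : s.1 = t.1 := by
      have h4 := ipat_lt hst 0 3
      have h5 : (key s (X 0) < key s (Y 0) ↔ key t (X 0) < key t (Y 0)) := h4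
      rw [hs, hs] at h5
      cases h6 : s.1 <;> cases h7 : t.1 <;> simp_all
    have e2 : s.2 = t.2 := by
      apply permEq
      intro g h
      have h4 := ipat_lt hst (Fin.castAdd 3 g) (Fin.castAdd 3 h)
      have h5 : ∀ g : Fin 3, six X Y (Fin.castAdd 3 g) = X g := by
        intro g
        fin_cases g <;> rfl
      rw [h5, h5, hpi, hpi] at h4
      exact h4
    exact Prod.ext e1 e2

end W435.PS
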