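import Mathlib
import Pool.Agent.W926.PS.Stm

/-!
Project PS: counting signatures.
-/

namespace W435.PS

open Finset W926.PS

/-- there are at most `(l+1)^q` subsets of `range l` with at most `q` elements -/
theorem cardSub (l q : ℕ) :
    ((range l).powerset.filter (fun E => E.card ≤ q)).card ≤ (l + 1) ^ q := by
  induction q with
  | zero =>
    have h : ((range l).powerset.filter (fun E => E.card ≤ 0)) ⊆ {∅} := by
      intro E hE
      rw [Finset.mem_filter] at hE
      rw [Finset.mem_singleton]
      exact Finset.card_eq_zero.1 (by omega)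
    simpa using Finset.card_le_card h
  | succ q ih =>
    have h : ((range l).powerset.filter (fun E => E.card ≤ q + 1)) ⊆
        (((range l).powerset.filter (fun E => E.card ≤ q)) ×ˢ range (l + 1)).image
          (fun z : Finset ℕ × ℕ => (insert z.2 z.1).filter (fun i => i < l)) := by
      intro E hE
      rw [Finset.mem_filter, Finset.mem_powerset] at hE
      rw [Finset.mem_image]
      by_cases hc : E.card ≤ q
      · refine ⟨(E, l), ?_, ?_⟩
        · rw [Finset.mem_product, Finset.mem_filter, Finset.mem_powerset, Finset.mem_range]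
          exact ⟨⟨hE.1, hc⟩, by omega⟩
        · ext i
          simp only [Finset.mem_filter, Finset.mem_insert]
          constructor
          · rintro ⟨rfl | h1, h2⟩
            · omega
            · exact h1
          · intro hi
            exact ⟨Or.inr hi, Finset.mem_range.1 (hE.1 hi)⟩
      · obtain ⟨a, ha⟩ : E.Nonempty := Finset.card_pos.1 (by omega)
        refine ⟨(E.erase a, a), ?_, ?_⟩
        · rw [Finset.mem_product, Finset.mem_filter, Finset.mem_powerset, Finset.mem_range]
          refine ⟨⟨(Finset.erase_subset _ _).trans hE.1, ?_⟩, ?_⟩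
          · dsimp only
            rw [Finset.card_erase_of_mem ha]; omega
          · have := Finset.mem_range.1 (hE.1 ha)
            dsimp only
            omega
        · dsimp only
          rw [Finset.insert_erase ha]
          exact Finset.filter_true_of_mem (fun i hi => Finset.mem_range.1 (hE.1 hi))
    calc ((range l).powerset.filter (fun E => E.card ≤ q + 1)).card
        ≤ _ := Finset.card_le_card h
      _ ≤ _ := Finset.card_image_le
      _ = ((range l).powerset.filter (fun E => E.card ≤ q)).card * (l + 1) := by
          rw [Finset.card_product, Finset.card_range]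
      _ ≤ (l + 1) ^ q * (l + 1) := Nat.mul_le_mul_right _ ih
      _ = (l + 1) ^ (q + 1) := by ring

/-- few heavy cells -/
theorem heavyCard (hB : S_B) {α : Type} [Fintype α] [DecidableEq α] (Q R q T : ℕ)
    (pos lev : ℕ → α → ℕ) (hQ : 0 < Q) (hcard : Fintype.card α ≤ Q ^ R)
    (hlev : LevSpec Q R q T pos lev) (x : α) (E : Finset ℕ) (hE : E.card ≤ q)
    (hET : ∀ i ∈ E, lev i x < T) (l t : ℕ) (H : Finset ℕ)
    (hH : ∀ c ∈ H, Q ^ R < (univ.filter (fun y : α =>
      (∀ i ∈ E, cell Q R (lev i x) (pos i y) = cell Q R (lev i x) (pos i x)) ∧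
        cell Q R t (pos l y) = c)).card * Q ^ (E.card + 1)) : H.card ≤ Q := by
  have h1 := hB α Q R q T pos lev hlev hcard x E (by omega) hET
  set S := univ.filter (fun y : α => ∀ i ∈ E,
      cell Q R (lev i x) (pos i y) = cell Q R (lev i x) (pos i x)) with hS
  have h2 : ∑ c ∈ H, (S.filter (fun y => cell Q R t (pos l y) = c)).card ≤ S.card := by
    rw [← Finset.card_biUnion]
    · apply Finset.card_le_card
      intro y hy
      rw [Finset.mem_biUnion] at hy
      obtain ⟨c, -, hc⟩ := hy
      exact (Finset.mem_filter.1 hc).1
    · intro c _ c' _ hcc'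
      rw [Function.onFun, Finset.disjoint_left]
      intro y hy hy'
      rw [Finset.mem_filter] at hy hy'
      exact hcc' (hy.2.symm.trans hy'.2)
  have h3 : H.card * Q ^ R ≤ Q * Q ^ R := by
    calc H.card * Q ^ R = ∑ c ∈ H, Q ^ R := by rw [Finset.sum_const, smul_eq_mul]
      _ ≤ ∑ c ∈ H, (S.filter (fun y => cell Q R t (pos l y) = c)).card * Q ^ (E.card + 1) := by
          apply Finset.sum_le_sum
          intro c hc
          have h4 := hH c hc
          rw [hS, Finset.filter_filter]
          exact h4.le
      _ = (∑ c ∈ H, (S.filter (fun y => cell Q R t (pos l y) = c)).card) * Q ^ (E.card + 1) := by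
          rw [Finset.sum_mul]
      _ ≤ S.card * Q ^ (E.card + 1) := Nat.mul_le_mul_right _ h2
      _ = S.card * Q ^ E.card * Q := by ring
      _ ≤ Q ^ R * Q := Nat.mul_le_mul_right _ h1
      _ = Q * Q ^ R := by ring
  exact Nat.le_of_mul_le_mul_right h3 (by positivity)

/-- the values of the next coordinate for a given partial signature -/
theorem nextCard (hB : S_B) {α : Type} [Fintype α] [DecidableEq α] (Q R q T m : ℕ)
    (pos lev : ℕ → α → ℕ) (hQ : 0 < Q) (hTR : T ≤ R) (hcard : Fintype.card α ≤ Q ^ R)
    (hpos : ∀ l x, pos l x < Q ^ R)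
    (hlev : LevSpec Q R q T pos lev) (l : ℕ) (hl : l ≤ m) (x : α) (V : Finset (ℕ × ℕ))
    (hV : ∀ z ∈ V, ∃ y : α, z = (lev l y, cell Q R (lev l y) (pos l y)) ∧
      ∀ i < l, lev i y = lev i x ∧
        cell Q R (lev i y) (pos i y) = cell Q R (lev i x) (pos i x)) :
    V.card ≤ 1 + T * (m + 1) ^ q * Q ^ 2 := by
  classical
  let heavy : Finset ℕ → ℕ → Finset ℕ := fun E t =>
    (univ.image (fun y : α => cell Q R t (pos l y))).filter (fun c =>
      Q ^ R < (univ.filter (fun y : α =>
      (∀ i ∈ E, cell Q R (lev i x) (pos i y) = cell Q R (lev i x) (pos i x)) ∧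
        cell Q R t (pos l y) = c)).card * Q ^ (E.card + 1))
  let EE : Finset (Finset ℕ) := ((range l).powerset.filter (fun E => E.card ≤ q)).filter
    (fun E => ∀ i ∈ E, lev i x < T)
  let W : Finset (ℕ × ℕ) := insert (0, 0) ((range T).biUnion fun t => EE.biUnion fun E =>
    (heavy E t).biUnion fun c => (range Q).image fun r => (t + 1, Q * c + r))
  have hVW : V ⊆ W := by
    intro z hz
    obtain ⟨y, rfl, hy⟩ := hV z hz
    rcases Nat.eq_zero_or_pos (lev l y) with h0 | h0
    · have h1 : cell Q R (lev l y) (pos l y) = 0 := by
        rw [h0]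
        unfold cell
        rw [Nat.sub_zero]
        exact Nat.div_eq_of_lt (hpos l y)
      rw [h1, h0]
      exact Finset.mem_insert_self _ _
    · obtain ⟨t, ht⟩ : ∃ t, lev l y = t + 1 := ⟨lev l y - 1, by omega⟩
      have hbad := hlev.bad l y t (by omega)
      unfold Cond at hbad
      push Not at hbad
      obtain ⟨E, hEl, hEq, hET, hEh⟩ := hbad
      have htT : t < T := by
        have := hlev.le l y
        omega
      rw [ht]
      apply Finset.mem_insert_of_mem
      rw [Finset.mem_biUnion]
      refine ⟨t, Finset.mem_range.2 htT, ?_⟩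
      rw [Finset.mem_biUnion]
      refine ⟨E, ?_, ?_⟩
      · rw [Finset.mem_filter, Finset.mem_filter, Finset.mem_powerset]
        refine ⟨⟨fun i hi => Finset.mem_range.2 (hEl i hi), hEq⟩, ?_⟩
        intro i hi
        rw [← (hy i (hEl i hi)).1]
        exact hET i hi
      · rw [Finset.mem_biUnion]
        refine ⟨cell Q R t (pos l y), ?_, ?_⟩
        · rw [Finset.mem_filter]
          refine ⟨Finset.mem_image_of_mem _ (Finset.mem_univ _), ?_⟩
          refine lt_of_lt_of_le hEh (Nat.mul_le_mul_right _ (Finset.card_le_card ?_))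
          intro w hw
          rw [Finset.mem_filter] at hw ⊢
          refine ⟨hw.1, ?_, hw.2.2⟩
          intro i hi
          have h1 := hw.2.1 i hi
          have h2 := hy i (hEl i hi)
          rw [h2.2, h2.1] at h1
          exact h1
        · rw [Finset.mem_image]
          refine ⟨cell Q R (t + 1) (pos l y) % Q, Finset.mem_range.2 (Nat.mod_lt _ hQ), ?_⟩
          have h1 : cell Q R t (pos l y) = cell Q R (t + 1) (pos l y) / Q := by
            unfold cell
            rw [Nat.div_div_eq_div_mul, ← pow_succ]
            congr 2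
            omega
          rw [h1, Nat.div_add_mod]
  have hEE : EE.card ≤ (m + 1) ^ q := by
    calc EE.card ≤ ((range l).powerset.filter (fun E => E.card ≤ q)).card :=
          Finset.card_filter_le _ _
      _ ≤ (l + 1) ^ q := cardSub l q
      _ ≤ (m + 1) ^ q := Nat.pow_le_pow_left (by omega) _
  have h1 : ∀ t, ∀ E ∈ EE, ((heavy E t).biUnion fun c =>
      (range Q).image fun r => (t + 1, Q * c + r)).card ≤ Q * Q := by
    intro t E hE
    have hE' := Finset.mem_filter.1 hE
    have hE'' := Finset.mem_filter.1 hE'.1
    have h2 : (heavy E t).card ≤ Q := by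
      apply heavyCard hB Q R q T pos lev hQ hcard hlev x E hE''.2 hE'.2 l t
      intro c hc
      exact (Finset.mem_filter.1 hc).2
    refine le_trans (Finset.card_biUnion_le_card_mul _ _ Q ?_) (Nat.mul_le_mul_right _ h2)
    intro c _
    exact le_trans Finset.card_image_le (by rw [Finset.card_range])
  have h2 : ∀ t ∈ range T, (EE.biUnion fun E => (heavy E t).biUnion fun c =>
      (range Q).image fun r => (t + 1, Q * c + r)).card ≤ (m + 1) ^ q * (Q * Q) := by
    intro t _
    exact le_trans (Finset.card_biUnion_le_card_mul _ _ _ (h1 t)) (Nat.mul_le_mul_right _ hEE)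
  calc V.card ≤ W.card := Finset.card_le_card hVW
    _ ≤ ((range T).biUnion fun t => EE.biUnion fun E =>
    (heavy E t).biUnion fun c => (range Q).image fun r => (t + 1, Q * c + r)).card + 1 :=
        Finset.card_insert_le _ _
    _ ≤ (range T).card * ((m + 1) ^ q * (Q * Q)) + 1 :=
        Nat.add_le_add_right (Finset.card_biUnion_le_card_mul _ _ _ h2) 1
    _ = 1 + T * (m + 1) ^ q * Q ^ 2 := by rw [Finset.card_range]; ring

theorem sig : S_B → S_SIG := by
  intro hB α _ _ Q R q T m pos lev hQ hTR hcard hpos hlev
  have key : ∀ l ≤ m,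
      (univ.image (fun (x : α) (i : Fin l) => (lev i x, cell Q R (lev i x) (pos i x)))).card ≤
        (1 + T * (m + 1) ^ q * Q ^ 2) ^ l := by
    intro l
    induction l with
    | zero =>
      intro _
      rw [pow_zero]
      exact Finset.card_le_one_of_subsingleton _
    | succ l ih =>
      intro hl
      have ih' := ih (by omega)
      set S := univ.image (fun (x : α) (i : Fin (l + 1)) =>
        (lev i x, cell Q R (lev i x) (pos i x))) with hS
      have hres : S.image (fun σ (i : Fin l) => σ i.castSucc) =
          univ.image (fun (x : α) (i : Fin l) => (lev i x, cell Q R (lev i x) (pos i x))) := by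
        rw [hS, Finset.image_image]
        rfl
      have h1 := Finset.card_le_mul_card_image (f := fun σ (i : Fin l) => σ i.castSucc) S
        (1 + T * (m + 1) ^ q * Q ^ 2) (by
          intro s hs
          rw [hres, Finset.mem_image] at hs
          obtain ⟨x, -, rfl⟩ := hs
          rw [← Finset.card_image_of_injOn (f := fun σ : Fin (l + 1) → ℕ × ℕ => σ (Fin.last l))]
          · apply nextCard hB Q R q T m pos lev hQ hTR hcard hpos hlev l (by omega) x
            intro z hz
            rw [Finset.mem_image] at hz
            obtain ⟨σ, hσ, rfl⟩ := hz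
            rw [Finset.mem_filter, hS, Finset.mem_image] at hσ
            obtain ⟨⟨y, -, rfl⟩, hy⟩ := hσ
            refine ⟨y, rfl, ?_⟩
            intro i hi
            have h2 := congrFun hy ⟨i, hi⟩
            simp only [Prod.mk.injEq] at h2
            exact h2
          · intro σ hσ σ' hσ' hss
            rw [Finset.mem_coe, Finset.mem_filter] at hσ hσ'
            funext i
            refine Fin.lastCases ?_ (fun j => ?_) i
            · exact hss
            · have h2 := congrFun (hσ.2.trans hσ'.2.symm) j
              exact h2)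
      rw [hres] at h1
      calc S.card ≤ _ := h1
        _ ≤ (1 + T * (m + 1) ^ q * Q ^ 2) * (1 + T * (m + 1) ^ q * Q ^ 2) ^ l :=
            Nat.mul_le_mul_left _ ih'
        _ = _ := by ring
  exact key m le_rfl

end W435.PS
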