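import Mathlib
import Pool.Agent.W926.PS.Base

/-!
Project PS: types on collisions.
-/

namespace W435.PS

open Finset W926.PS

theorem typ : S_TYP := by
  intro r a x y z v j d hc key
  obtain ⟨i₀, hi₀, hxz₀⟩ := hc.ne
  have hxz : x ≠ z := fun h => hxz₀ (congrFun h i₀)
  obtain ⟨e₀, he₀⟩ : ∃ e, x i₀ e ≠ z i₀ e := Function.ne_iff.1 hxz₀
  have hcrs : ∀ (st : Pos r a → ℕ) φ, PosKey st φ key →
      (∀ p', Before st p' (j, d) → (p'.1 < j ∧ x p'.1 = z p'.1) ∨ (p'.1 = j ∧ p'.2 < d)) →
      Crs key x y z v := by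
    intro st φ hk h
    refine crs_of hk (p := (j, d)) ?_ ?_ ?_ ?_
    · intro p' hp'
      rcases h p' hp' with ⟨h1, h2⟩ | ⟨h1, h2⟩
      · have h3 := hc.xy _ h1
        have h4 := hc.zv _ h1
        refine ⟨congrFun h3 _, congrFun h2 _, ?_⟩
        rw [congrFun h2 p'.2, congrFun h4 p'.2]
      · rw [h1]
        exact hc.pre _ h2
    · show x j d = z j d
      rw [hc.bx, hc.bz]
    · show y j d = v j d
      rw [hc.byy, hc.bv]
    · show x j d ≠ y j d
      rw [hc.bx, hc.byy]
      simp
  have hblk : ∀ (st : Pos r a → ℕ) φ, PosKey st φ key → ∀ P, FD st x z P → P.1 < j →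
      (∀ p', Before st p' P → p'.1 < j) → Blk key x y z v := by
    intro st φ hk P hP hPj h
    refine blk_of hk (p := P) ?_ ?_ ?_ hP.2
    · intro p' hp'
      have h1 := h p' hp'
      have h2 := hP.1 p' hp'
      have h3 := congrFun (hc.xy _ h1) p'.2
      have h4 := congrFun (hc.zv _ h1) p'.2
      exact ⟨h3, h2, h2.trans h4⟩
    · exact congrFun (hc.xy _ hPj) P.2
    · exact congrFun (hc.zv _ hPj) P.2
  refine ⟨?_, ?_, ?_, ?_, ?_⟩
  · intro φ hk
    obtain ⟨P, hP⟩ := exists_FD st0 hxz
    have hP' := FD0_iff.1 hP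
    have hPj : P.1 < j := by
      by_contra h
      rw [not_lt] at h
      exact hxz₀ (hP'.1 i₀ (lt_of_lt_of_le hi₀ h))
    have hxy : x P.1 = y P.1 := hc.xy _ hPj
    have hzv : z P.1 = v P.1 := hc.zv _ hPj
    have hb : ∀ p', Before st0 p' P → x p'.1 p'.2 = y p'.1 p'.2 ∧ z p'.1 p'.2 = v p'.1 p'.2 := by
      intro p' hp'
      have h1 : p'.1 < j := by
        rcases before_st0.1 hp' with h | h
        · exact lt_trans h hPj
        · rw [h.1]; exact hPj
      exact ⟨congrFun (hc.xy _ h1) _, congrFun (hc.zv _ h1) _⟩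
    have hlxy : lab x P = lab y P := by
      unfold lab
      rw [hxy]
    have hxzv : FD st0 x v P := ⟨fun p' hp' => (hP.1 p' hp').trans (hb p' hp').2, by
      rw [← hzv]; exact hP.2⟩
    have hyz : FD st0 y z P := ⟨fun p' hp' => (hb p' hp').1.symm.trans (hP.1 p' hp'), by
      rw [← hxy]; exact hP.2⟩
    have hyv : FD st0 y v P := ⟨fun p' hp' =>
      ((hb p' hp').1.symm.trans (hP.1 p' hp')).trans (hb p' hp').2, by
      rw [← hxy, ← hzv]; exact hP.2⟩
    have e1 := hk x z P hP
    have e2 := hk x v P hxzv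
    have e3 := hk y z P hyz
    have e4 := hk y v P hyv
    rw [← hlxy, ← hxy] at e3 e4
    exact ⟨e1.trans e2.symm, e1.trans e3.symm, e1.trans e4.symm⟩
  · intro φ hk
    refine hcrs _ φ hk ?_
    intro p' hp'
    right
    unfold Before st1 at hp'
    simp only [if_true] at hp'
    by_cases h : p'.1 = j
    · refine ⟨h, ?_⟩
      rw [if_pos h] at hp'
      have h1 : nrk p' < nrk (j, d) := by omega
      rw [nrk_lt_iff] at h1
      rcases h1 with h1 | h1
      · exact absurd h1 (by rw [h]; exact lt_irrefl _)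
      · exact h1.2
    · rw [if_neg h] at hp'
      omega
  · intro i φ hij hk
    obtain ⟨P, hP⟩ := exists_FD (st1 i) hxz
    have hPj : P.1 < j := by
      by_contra h
      rw [not_lt] at h
      refine he₀ (hP.1 (i₀, e₀) ?_)
      have h1 : P.1 ≠ i := fun h1 => by
        rw [h1] at h
        exact absurd hij (not_lt.2 h)
      have h2 : nrk (i₀, e₀) < nrk P := nrk_lt_iff.2 (Or.inl (lt_of_lt_of_le hi₀ h))
      unfold Before st1
      rw [if_neg h1]
      split_ifs
      · left; omega
      · right; exact ⟨rfl, h2⟩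
    refine hblk _ φ hk P hP hPj ?_
    intro p' hp'
    unfold Before st1 at hp'
    by_cases h : p'.1 = i
    · rw [h]; exact hij
    · rw [if_neg h] at hp'
      have h1 : nrk p' < nrk P := by
        split_ifs at hp' <;> omega
      rw [nrk_lt_iff] at h1
      rcases h1 with h1 | h1
      · exact lt_trans h1 hPj
      · rw [h1.1]; exact hPj
  · intro i φ hij hk hxi
    obtain ⟨P, hP⟩ := exists_FD (st2 i j) hxz
    obtain ⟨e₁, he₁⟩ : ∃ e, x i e ≠ z i e := Function.ne_iff.1 hxi
    have hPi : P.1 = i := by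
      by_contra h
      refine he₁ (hP.1 (i, e₁) ?_)
      left
      unfold st2
      rw [if_pos rfl, if_neg h]
      split_ifs <;> omega
    refine hblk _ φ hk P hP (by rw [hPi]; exact hij) ?_
    intro p' hp'
    have hsP : st2 i j P = 0 := if_pos hPi
    by_cases h : p'.1 = i
    · rw [h]; exact hij
    · have hsp : 0 < st2 i j p' := by
        unfold st2
        rw [if_neg h]
        split_ifs <;> omega
      rcases hp' with h1 | h1
      · rw [hsP] at h1; omega
      · rw [hsP] at h1
        have := h1.1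
        omega
  · intro i φ hij hk hxi
    refine hcrs _ φ hk ?_
    intro p' hp'
    have hji : j ≠ i := fun h => by
      rw [h] at hij; exact lt_irrefl _ hij
    unfold Before st2 at hp'
    simp only [if_neg hji, if_true] at hp'
    by_cases h : p'.1 = i
    · left
      rw [h]
      exact ⟨hij, hxi⟩
    · rw [if_neg h] at hp'
      right
      by_cases h' : p'.1 = j
      · refine ⟨h', ?_⟩
        rw [if_pos h'] at hp'
        have h1 : nrk p' < nrk (j, d) := by omega
        rw [nrk_lt_iff] at h1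
        rcases h1 with h1 | h1
        · exact absurd h1 (by rw [h']; exact lt_irrefl _)
        · exact h1.2
      · rw [if_neg h'] at hp'
        omega

end W435.PS
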