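import Mathlib
import Pool.Agent.W926.PS.Base

/-!
Project PS: patterns from labels.
-/

namespace W435.PS

open Finset W926.PS

theorem labn : S_LABN := by
  classical
  intro r a κ F hF y p hy
  obtain ⟨L, hL⟩ : ∃ L, L = univ.image (fun i : Fin 5 => lab (y i.castSucc) (p i)) := ⟨_, rfl⟩
  rw [← hL]
  have hLc : L.card ≤ 5 := by
    rw [hL]
    exact le_trans Finset.card_image_le (by simp)
  have hmem : ∀ i : Fin 5, lab (y i.castSucc) (p i) ∈ L := by
    intro i
    rw [hL]
    exact Finset.mem_image_of_mem _ (Finset.mem_univ i)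
  have h1 := fun s : L → Bool =>
    hF.lab L hLc (fun z => if h : z ∈ L then s ⟨z, h⟩ else false)
  choose key hkey φ' hφ hlab using h1
  have h2 := le_nq F (fun key => ∃ φ, LabKey φ key) y key hkey
    (fun s => ⟨φ' s, hlab s⟩) (by
      intro s t hst
      funext z
      obtain ⟨z, hz⟩ := z
      have hz' := hz
      rw [hL, Finset.mem_image] at hz'
      obtain ⟨i, -, rfl⟩ := hz'
      have h3 := ipat_lt hst i.castSucc i.succ
      have h4 := hlab s _ _ _ (hy i).1
      have h5 := hlab t _ _ _ (hy i).1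
      rw [h4, h5, (hy i).2.1, hφ s _ (hmem i), hφ t _ (hmem i), dif_pos (hmem i),
        dif_pos (hmem i)] at h3
      cases hs : s ⟨lab (y i.castSucc) (p i), hmem i⟩ <;>
        cases ht : t ⟨lab (y i.castSucc) (p i), hmem i⟩ <;> simp_all)
  have h3 : Fintype.card (L → Bool) = 2 ^ L.card := by simp
  rw [h3] at h2
  exact h2

end W435.PS
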